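import Mathlib
import Pool.Agent.Run7.h119.Pde3

/-!
# Damped wave equation with supercritical damping: bounded energy

`N ≥ 3`, `Ω ⊆ ℝ^N` bounded and open, `a > 0`, `α > 4 / (N - 2)`.  For
`u_tt - Δ u + a |u_t|^α u_t = f(t,x)` in `Ω`, `u = 0` on the boundary, with `f` bounded with values
in `L²(Ω)`, we show: every weak solution has bounded energy on `[0,∞)` as soon as the force has some
modulus of continuity in time, in the mean over unit time intervals.
-/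

open MeasureTheory Set Filter Topology
open scoped ENNReal ContDiff

namespace Pool.Agent.Results.MP_d105ab_an.TimeRegularForce

/-- Euclidean space `ℝ^N`. -/
abbrev E (N : ℕ) := EuclideanSpace ℝ (Fin N)

variable {N : ℕ}

/-- Test functions: smooth, with compact support contained in `Ω`. -/
def IsTestFunction (Ω : Set (E N)) (φ : E N → ℝ) : Prop :=
  ContDiff ℝ ∞ φ ∧ HasCompactSupport φ ∧ tsupport φ ⊆ Ω

/-- `w` lies in `H¹₀(Ω)` and `G` is its gradient: `w` and `G` are square integrable on `Ω`, and the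
pair `(w, G)` is a limit in `L²(Ω)` of pairs `(φ, ∇ φ)` with `φ` a test function. -/
def IsH10 (Ω : Set (E N)) (w : E N → ℝ) (G : E N → E N) : Prop :=
  MemLp w 2 (volume.restrict Ω) ∧ MemLp G 2 (volume.restrict Ω) ∧
    ∀ ε : ℝ≥0∞, 0 < ε → ∃ φ : E N → ℝ, IsTestFunction Ω φ ∧
      eLpNorm (fun x => w x - φ x) 2 (volume.restrict Ω) ≤ ε ∧
      eLpNorm (fun x => G x - gradient φ x) 2 (volume.restrict Ω) ≤ ε

/-- Weak solutions of `u_tt - Δ u + a |u_t|^α u_t = f` in `[0,∞) × Ω`, `u = 0` on the boundary: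
`u` is the solution, `Du` its spatial gradient, `v` its time derivative.  Here `(u, v)` is a
continuous path in the energy space `H¹₀(Ω) × L²(Ω)`, `v` is in `L^{α+2}` on bounded time intervals,
`u(t) = u(0) + ∫₀ᵗ v`, and the equation is tested with smooth functions with compact support in `Ω`
and integrated in time. -/
structure IsWeakSolution (Ω : Set (E N)) (a α : ℝ) (f u : ℝ → E N → ℝ) (Du : ℝ → E N → E N)
    (v : ℝ → E N → ℝ) : Prop where
  /-- `u(t) ∈ H¹₀(Ω)` with gradient `Du(t)` -/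
  mem_H10 : ∀ t, 0 ≤ t → IsH10 Ω (u t) (Du t)
  /-- `v(t) ∈ L²(Ω)` -/
  mem_L2 : ∀ t, 0 ≤ t → MemLp (v t) 2 (volume.restrict Ω)
  /-- `Du` is continuous with values in `L²(Ω)` -/
  continuous_Du : ∀ t, 0 ≤ t →
    Tendsto (fun s => eLpNorm (fun x => Du s x - Du t x) 2 (volume.restrict Ω)) (𝓝[Ici 0] t) (𝓝 0)
  /-- `v` is continuous with values in `L²(Ω)` -/
  continuous_v : ∀ t, 0 ≤ t →
    Tendsto (fun s => eLpNorm (fun x => v s x - v t x) 2 (volume.restrict Ω)) (𝓝[Ici 0] t) (𝓝 0)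
  /-- `v` is jointly measurable -/
  measurable_v : AEStronglyMeasurable (fun y : ℝ × E N => v y.1 y.2)
    (((volume : Measure ℝ).restrict (Ici 0)).prod (volume.restrict Ω))
  /-- the damping term has finite dissipation on bounded time intervals -/
  dissipation : ∀ T, 0 ≤ T → ∫⁻ t in Icc 0 T, ∫⁻ x in Ω, ‖v t x‖ₑ ^ (α + 2) < ⊤
  /-- `v` is the time derivative of `u` -/
  velocity : ∀ t, 0 ≤ t → ∀ᵐ x ∂(volume.restrict Ω), u t x = u 0 x + ∫ s in (0:ℝ)..t, v s x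
  /-- the equation -/
  equation : ∀ φ : E N → ℝ, IsTestFunction Ω φ → ∀ t, 0 ≤ t →
    (∫ x in Ω, v t x * φ x) - (∫ x in Ω, v 0 x * φ x) +
      (∫ s in (0:ℝ)..t, ∫ x in Ω, inner ℝ (Du s x) (gradient φ x)) +
      (∫ s in (0:ℝ)..t, ∫ x in Ω, a * |v s x| ^ α * v s x * φ x) =
    ∫ s in (0:ℝ)..t, ∫ x in Ω, f s x * φ x

/-- The energy `E(t) = ∫_Ω (u_t² + |∇u|²) dx`. -/
noncomputable def energy (Ω : Set (E N)) (Du : ℝ → E N → E N) (v : ℝ → E N → ℝ) (t : ℝ) : ℝ :=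
  ∫ x in Ω, (v t x ^ 2 + ‖Du t x‖ ^ 2)

/-- Supercritical damping `α > 4/(N-2)`, force `f` bounded in time with values in `L²(Ω)` and with a
Hölder modulus in time in the mean sense, of any exponent `θ > (α(N-2)-4)/(α(N+2))`: every weak
solution has bounded energy on `[0,∞)`. -/
theorem result {N : ℕ} (hN : 3 ≤ N) {Ω : Set (E N)} (hΩ : IsOpen Ω) (hbd : Bornology.IsBounded Ω)
    {a α : ℝ} (ha : 0 < a) (hα : 4 / ((N:ℝ) - 2) < α)
    {f : ℝ → E N → ℝ}
    (hf : AEStronglyMeasurable (fun y : ℝ × E N => f y.1 y.2)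
      (((volume : Measure ℝ).restrict (Ici 0)).prod (volume.restrict Ω)))
    {M : ℝ} (hfb : ∀ᵐ t ∂((volume : Measure ℝ).restrict (Ici 0)),
      ∫⁻ x in Ω, ‖f t x‖ₑ ^ (2:ℝ) ≤ ENNReal.ofReal (M ^ 2))
    {L θ : ℝ} (hθ : (α * ((N:ℝ) - 2) - 4) / (α * ((N:ℝ) + 2)) < θ)
    (hmod : ∀ t σ : ℝ, 0 ≤ t → 0 ≤ σ → σ ≤ 1 →
      ∫⁻ s in Icc t (t + 1), ∫⁻ x in Ω, ‖f (s + σ) x - f s x‖ₑ ^ ((α + 2) / (α + 1)) ≤
        ENNReal.ofReal (L * σ ^ θ))
    {u : ℝ → E N → ℝ} {Du : ℝ → E N → E N} {v : ℝ → E N → ℝ}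
    (hsol : IsWeakSolution Ω a α f u Du v) :
    ∃ C : ℝ, ∀ t, 0 ≤ t → energy Ω Du v t ≤ C := by
  have H : Run7.h119.WSol Ω a α f u Du v :=
    ⟨hsol.mem_H10, hsol.mem_L2, hsol.continuous_Du, hsol.continuous_v, hsol.measurable_v,
      hsol.dissipation, hsol.velocity, hsol.equation⟩
  obtain ⟨C, hC⟩ := Run7.h119.pde_bounded hN hΩ hbd ha hα hf hfb hθ hmod H
  refine ⟨C, fun t ht => ?_⟩
  have h := hC t ht
  have i1 : Integrable (fun x => v t x ^ 2) (volume.restrict Ω) :=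
    (hsol.mem_L2 t ht).integrable_sq
  have i2 : Integrable (fun x => ‖Du t x‖ ^ 2) (volume.restrict Ω) :=
    (hsol.mem_H10 t ht).2.1.norm.integrable_sq
  unfold energy
  rw [integral_add i1 i2]
  exact h

end Pool.Agent.Results.MP_d105ab_an.TimeRegularForce
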